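import Pool.Agent.Helper12.CX.NRZ
import Pool.Agent.Helper29.CX.LAU
import Pool.Agent.Helper29.CX.SYM

/-!
Two point comparison (MP_c75db0).  If all zeros lie in the half plane `Re x ≤ m`, then
`|T x| ≤ |T x'|` for all real `x ≤ x'` with `2 m ≤ x + x'`: zero freeness may be certified on a line
to the right of the threshold, at the price of comparing only pairs whose mean is at least `m`.
-/

set_option autoImplicit false
noncomputable section
namespace Pool.Agent.Helper6.MONO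

open Polynomial Filter Topology

/-- a real polynomial without zeros in `Re x > m` is larger at the right one of two points whose
mean is at least `m` -/
def ST_R3X2 : Prop := ∀ (m : ℝ) (T : ℝ[X]), (∀ x : ℂ, m < x.re → aeval x T ≠ 0) →
  ∀ x x' : ℝ, x ≤ x' → 2 * m ≤ x + x' → |T.eval x| ≤ |T.eval x'|

/-- two point monotonicity of zero free coordinates -/
def ST_MON2 : Prop := ∀ (c : Fin 3 → ℝ) (F : Fin 3 → ℝ[X]) (w : List (Fin 3)) (j : Fin 3) (m : ℝ),
  (∀ z : ℂ, InX m z → gact (wG c z) w (evv F z) j ≠ 0) →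
  ∀ z z' : ℂ, ‖z‖ = 1 → ‖z'‖ = 1 → z.re ≤ z'.re → m ≤ z.re + z'.re →
    ‖gact (wG c z) w (evv F z) j‖ ≤ ‖gact (wG c z') w (evv F z') j‖

/-- zero free for `Re x > m`, domination on the arc `x > x0` -/
def ZF2 (p q r : ℕ) (x0 m : ℝ) : Prop :=
  ∃ (F : (Fin 3 × Fin 3 × Fin 3) → Fin 3 → Fin 3 → ℝ[X]) (B : ℝ),
    (∀ (n a b : Fin 3), Dist n a b → ∀ z : ℂ, ‖z‖ = 1 → x0 ≤ 2 * z.re →
      LinearIndependent ℂ (fun i => evv (F (n, a, b) i) z)) ∧
    ∀ (n a b : Fin 3), Dist n a b → ∀ ms : List ℕ, okD p q r false (n, a, b) ms → ∀ i : Fin 3,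
      (∀ z : ℂ, InX m z → gact (wG (cw p q r) z) (dw (n, a, b) ms) (evv (F (n, a, b) i) z)
        (sD (n, a, b) ms).2.2 ≠ 0) ∧
      (∀ z : ℂ, ‖z‖ = 1 → x0 < 2 * z.re →
        ‖gact (wG (cw p q r) z) (dw (n, a, b) ms) (evv (F (n, a, b) i) z)‖ ≤
          B * ‖gact (wG (cw p q r) z) (dw (n, a, b) ms) (evv (F (n, a, b) i) z)
            (sD (n, a, b) ms).2.2‖)

/-- norms of all words are comparable at two parameters whose mean is at least `m` -/
def ST_NRZ2 : Prop := ∀ (p q r : ℕ), 3 ≤ p → 3 ≤ q → 3 ≤ r → ∀ x0 m : ℝ, -2 < x0 →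
  ZF2 p q r x0 m → ∀ z z' : ℂ, ‖z‖ = 1 → ‖z'‖ = 1 → x0 ≤ 2 * z.re → z.re ≤ z'.re →
    m ≤ z.re + z'.re → ∃ C : ℝ, ∀ w : List (Fin 3),
      nrm (gact (wG (cw p q r) z) w) ≤ C * nrm (gact (wG (cw p q r) z') w)

def ST_NRZ2' : Prop := ST_CAN → ST_WIG → ST_INV → ST_NRZ2

theorem r3x2_prod (m x x' : ℝ) (hxx : x ≤ x') (hm : 2 * m ≤ x + x') (R : Multiset ℂ) :
    (∀ ρ ∈ R, ρ.re ≤ m) →
    (R.map (fun ρ => ‖(x : ℂ) - ρ‖)).prod ≤ (R.map (fun ρ => ‖(x' : ℂ) - ρ‖)).prod := by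
  induction R using Multiset.induction_on with
  | empty => intro _; simp
  | cons ρ R ih =>
    intro h
    rw [Multiset.map_cons, Multiset.map_cons, Multiset.prod_cons, Multiset.prod_cons]
    refine mul_le_mul ?_ (ih fun y hy => h y (Multiset.mem_cons_of_mem hy)) ?_ (norm_nonneg _)
    · have h1 := h ρ (Multiset.mem_cons_self ρ R)
      rw [← Real.sqrt_sq (norm_nonneg _), ← Real.sqrt_sq (norm_nonneg ((x' : ℂ) - ρ))]
      refine Real.sqrt_le_sqrt ?_
      rw [← Complex.normSq_eq_norm_sq, ← Complex.normSq_eq_norm_sq, Complex.normSq_apply,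
        Complex.normSq_apply]
      simp only [Complex.sub_re, Complex.sub_im, Complex.ofReal_re, Complex.ofReal_im]
      nlinarith [mul_nonneg (sub_nonneg.2 hxx) (show (0:ℝ) ≤ x + x' - 2 * ρ.re by linarith)]
    · refine Multiset.prod_nonneg ?_
      intro y hy
      obtain ⟨y', _, rfl⟩ := Multiset.mem_map.1 hy
      exact norm_nonneg _

theorem st_R3X2 : ST_R3X2 := by
  intro m T hT x x' hxx hm
  set Q := T.map (algebraMap ℝ ℂ) with hQ
  have hsp : Q.Splits := IsAlgClosed.splits _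
  have h2 : ∀ t : ℝ, |T.eval t| = ‖Q.leadingCoeff‖ *
      (Q.roots.map (fun ρ => ‖(t : ℂ) - ρ‖)).prod := by
    intro t
    have e1 : Q.eval (t : ℂ) = ((T.eval t : ℝ) : ℂ) := by
      rw [hQ, eval_map_algebraMap]
      have := Polynomial.aeval_algebraMap_apply ℂ t T
      rw [show ((t : ℝ) : ℂ) = algebraMap ℝ ℂ t from rfl, this]
      rfl
    have e2 : |T.eval t| = ‖Q.eval (t : ℂ)‖ := by
      rw [e1, Complex.norm_real, Real.norm_eq_abs]
    rw [e2, hsp.eval_eq_prod_roots, norm_mul]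
    congr 1
    generalize Q.roots = R
    induction R using Multiset.induction_on with
    | empty => simp
    | cons ρ R ih => simp [ih]
  rw [h2, h2]
  refine mul_le_mul_of_nonneg_left (r3x2_prod m x x' hxx hm _ ?_) (norm_nonneg _)
  intro ρ hρ
  by_contra hc
  push Not at hc
  refine hT ρ hc ?_
  have := (mem_roots'.1 hρ).2
  rw [IsRoot.def, hQ, eval_map_algebraMap] at this
  exact this

theorem mon2_ex (x : ℂ) : ∃ z : ℂ, z ≠ 0 ∧ z + z⁻¹ = x := by
  obtain ⟨z, hz⟩ := IsAlgClosed.exists_root (X ^ 2 - C x * X + 1 : ℂ[X]) (by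
    have : (X ^ 2 - C x * X + 1 : ℂ[X]).degree = 2 := by
      compute_degree!
    rw [this]; norm_num)
  have h1 : z ^ 2 - x * z + 1 = 0 := by simpa using hz
  have hz0 : z ≠ 0 := by
    rintro rfl
    simp at h1
  refine ⟨z, hz0, ?_⟩
  field_simp
  linear_combination h1

theorem st_MON2 : ST_MON2 := by
  intro c F w j m hE z z' hz hz' hzz hm
  obtain ⟨k, P, hP⟩ := st_LAU c F w j
  obtain ⟨T, hT⟩ := st_SYM P
  set E : ℂ → ℂ := fun z => gact (wG c z) w (evv F z) j with hEd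
  have hE' : ∀ z, InX m z → E z ≠ 0 := hE
  have hP' : ∀ z : ℂ, z ≠ 0 → z ^ k * E z = aeval z P := hP
  have hT0 : ∀ x : ℂ, m < x.re → aeval x T ≠ 0 := by
    intro x hx
    obtain ⟨z, hz0, rfl⟩ := mon2_ex x
    have hz1 : z⁻¹ ≠ 0 := inv_ne_zero hz0
    rw [hT z hz0, ← hP' z hz0, ← hP' _ hz1]
    have i1 : InX m z := ⟨hz0, hx⟩
    have i2 : InX m z⁻¹ := ⟨hz1, by rw [inv_inv, add_comm]; exact hx⟩
    exact mul_ne_zero (mul_ne_zero (pow_ne_zero _ hz0) (hE' _ i1))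
      (mul_ne_zero (pow_ne_zero _ hz1) (hE' _ i2))
  have key : ∀ z : ℂ, ‖z‖ = 1 → |T.eval (2 * z.re)| = ‖E z‖ ^ 2 := by
    intro z hz
    have hz0 : z ≠ 0 := by
      rintro rfl
      simp at hz
    have hinv : z⁻¹ = (starRingEnd ℂ) z := by
      rw [Complex.inv_def, Complex.normSq_eq_norm_sq, hz]; simp
    have hsum : z + z⁻¹ = ((2 * z.re : ℝ) : ℂ) := by
      rw [hinv, Complex.add_conj]
    have h1 : (aeval (((2 * z.re : ℝ) : ℂ)) T : ℂ) = ((T.eval (2 * z.re) : ℝ) : ℂ) := by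
      have := Polynomial.aeval_algebraMap_apply ℂ (2 * z.re) T
      rw [show (((2 * z.re : ℝ)) : ℂ) = algebraMap ℝ ℂ (2 * z.re) from rfl, this]
      rfl
    have h2 := hT z hz0
    rw [hsum, h1, hinv, aeval_conj P z, ← hP' z hz0] at h2
    have h3 := congrArg norm h2
    rw [Complex.norm_real, Real.norm_eq_abs, norm_mul, RCLike.norm_conj, norm_mul, norm_pow, hz,
      one_pow, one_mul] at h3
    rw [h3]; ring
  have h1 := key z hz
  have h2 := key z' hz'
  have h3 := st_R3X2 m T hT0 (2 * z.re) (2 * z'.re) (by linarith) (by linarith)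
  rw [h1, h2] at h3
  exact le_of_sq_le_sq h3 (norm_nonneg _)

/-- comparison for one start state -/
theorem nrz2_star (p q r : ℕ) (x0 m : ℝ)
    (F : (Fin 3 × Fin 3 × Fin 3) → Fin 3 → Fin 3 → ℝ[X]) (B : ℝ) (z z' : ℂ) (hz : ‖z‖ = 1)
    (hz' : ‖z'‖ = 1) (hx : x0 ≤ 2 * z.re) (hzz : z.re < z'.re) (hm : m ≤ z.re + z'.re)
    (n a b : Fin 3)
    (hli : LinearIndependent ℂ (fun i => evv (F (n, a, b) i) z))
    (hF : ∀ ms : List ℕ, okD p q r false (n, a, b) ms → ∀ i : Fin 3,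
      (∀ z : ℂ, InX m z → gact (wG (cw p q r) z) (dw (n, a, b) ms) (evv (F (n, a, b) i) z)
        (sD (n, a, b) ms).2.2 ≠ 0) ∧
      (∀ z : ℂ, ‖z‖ = 1 → x0 < 2 * z.re →
        ‖gact (wG (cw p q r) z) (dw (n, a, b) ms) (evv (F (n, a, b) i) z)‖ ≤
          B * ‖gact (wG (cw p q r) z) (dw (n, a, b) ms) (evv (F (n, a, b) i) z)
            (sD (n, a, b) ms).2.2‖)) :
    ∃ C : ℝ, 0 ≤ C ∧ ∀ ms : List ℕ, okD p q r false (n, a, b) ms → ∀ A : ℝ, 0 ≤ A →
      (∀ x : V3, ‖gact (wG (cw p q r) z') (dw (n, a, b) ms) x‖ ≤ A * ‖x‖) →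
      nrm (gact (wG (cw p q r) z) (dw (n, a, b) ms)) ≤ C * A := by
  have hz1 : z.re < 1 := by
    have := Complex.abs_re_le_norm z'
    rw [hz', abs_le] at this
    linarith [this.2]
  obtain ⟨Cb, hCb, hbas⟩ := nrm_basis _ hli
  set S : ℝ := ∑ i, ‖evv (F (n, a, b) i) z'‖ with hS
  have hS0 : 0 ≤ S := Finset.sum_nonneg (fun _ _ => norm_nonneg _)
  refine ⟨Cb * (|B| * S), by positivity, ?_⟩
  intro ms hok A hA hgA
  rw [mul_assoc]
  refine hbas (nrm_lin (wG (cw p q r) z) (dw (n, a, b) ms)) (|B| * S * A) ?_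
  intro i
  rw [nrm_lin_apply]
  obtain ⟨k1, k2⟩ := hF ms hok i
  have e1 := nrz_closed (cw p q r) (F (n, a, b) i) (dw (n, a, b) ms) (sD (n, a, b) ms).2.2 x0 B k2
    z hz hx hz1
  have e2 := st_MON2 (cw p q r) (F (n, a, b) i) (dw (n, a, b) ms) (sD (n, a, b) ms).2.2 m k1 z z' hz
    hz' hzz.le hm
  have e3 := norm_le_pi_norm
    (gact (wG (cw p q r) z') (dw (n, a, b) ms) (evv (F (n, a, b) i) z')) (sD (n, a, b) ms).2.2
  have e4 := hgA (evv (F (n, a, b) i) z')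
  have e5 : ‖evv (F (n, a, b) i) z'‖ ≤ S :=
    Finset.single_le_sum (f := fun i => ‖evv (F (n, a, b) i) z'‖) (fun _ _ => norm_nonneg _)
      (Finset.mem_univ i)
  calc ‖gact (wG (cw p q r) z) (dw (n, a, b) ms) (evv (F (n, a, b) i) z)‖
      ≤ B * ‖gact (wG (cw p q r) z) (dw (n, a, b) ms) (evv (F (n, a, b) i) z)
            (sD (n, a, b) ms).2.2‖ := e1
    _ ≤ |B| * ‖gact (wG (cw p q r) z) (dw (n, a, b) ms) (evv (F (n, a, b) i) z)
            (sD (n, a, b) ms).2.2‖ :=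
        mul_le_mul_of_nonneg_right (le_abs_self B) (norm_nonneg _)
    _ ≤ |B| * (A * S) := by
        refine mul_le_mul_of_nonneg_left (e2.trans (e3.trans (e4.trans ?_))) (abs_nonneg B)
        exact mul_le_mul_of_nonneg_left e5 hA
    _ = |B| * S * A := by ring

theorem st_NRZ2 : ST_NRZ2' := by
  intro hCAN hWIG hINV p q r hp hq hr x0 m hx0 hZF z z' hz hz' hx hzz hm
  rcases hzz.lt_or_eq with hlt | heq
  swap
  · refine ⟨1, fun w => ?_⟩
    rcases nrz_same z z' hz hz' heq with h | h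
    · rw [h, one_mul]
    · rw [h, nrz_nrm_conj, one_mul]
  have hne : ∀ u : ℂ, x0 ≤ 2 * u.re → u ≠ -1 := by
    rintro u hu rfl
    simp at hu
    linarith
  obtain ⟨τ, hG⟩ := hWIG p q r hp hq hr z hz (hne z hx)
  obtain ⟨τ', hG'⟩ := hWIG p q r hp hq hr z' hz' (hne z' (by linarith))
  obtain ⟨F, BF, hli, hF⟩ := hZF
  obtain ⟨B, hB⟩ := hCAN p q r hp hq hr
  classical
  have hst : ∀ t : Fin 3 × Fin 3 × Fin 3, ∃ C : ℝ, 0 ≤ C ∧ (Dist t.1 t.2.1 t.2.2 →
      ∀ ms : List ℕ, okD p q r false t ms →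
      ∀ A : ℝ, 0 ≤ A → (∀ x : V3, ‖gact (wG (cw p q r) z') (dw t ms) x‖ ≤ A * ‖x‖) →
      nrm (gact (wG (cw p q r) z) (dw t ms)) ≤ C * A) := by
    rintro ⟨n, a, b⟩
    by_cases hD : Dist n a b
    · obtain ⟨C, hC, h⟩ := nrz2_star p q r x0 m F BF z z' hz hz' hx hlt hm n a b
        (hli n a b hD z hz hx) (hF n a b hD)
      exact ⟨C, hC, fun _ => h⟩
    · exact ⟨0, le_rfl, fun h => absurd h hD⟩
  choose Ct hCt0 hCt using hst
  set CS : ℝ := ∑ t, Ct t with hCS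
  have hCS0 : 0 ≤ CS := Finset.sum_nonneg (fun t _ => hCt0 t)
  set G := wG (cw p q r) z with hGd
  set G' := wG (cw p q r) z' with hGd'
  have hK := nrm_K_one G
  have hK' := nrm_K_one G'
  refine ⟨3 * (nrm_K G ^ B * (CS * (nrm_K G' ^ B * nrm_K G' ^ B)) * nrm_K G ^ B), ?_⟩
  intro w
  obtain ⟨h, t, n, a, b, ms, hD, hlh, hlt', hok, hEq⟩ := hB w
  have hN := nrm_nonneg (gact G' w)
  have h1 : ∀ x : V3, ‖gact G' (dw (n, a, b) ms) x‖ ≤
      (nrm_K G' ^ B * nrm_K G' ^ B * nrm (gact G' w)) * ‖x‖ := by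
    intro x
    have e1 : gact G' h (gact G' h.reverse x) = x := by
      have := nrm_inv hINV p q r hp hq hr τ' G' hG' h.reverse x
      rwa [List.reverse_reverse] at this
    have e2 : gact G' (dw (n, a, b) ms) x = gact G' t.reverse (gact G' w (gact G' h.reverse x)) := by
      rw [hEq τ' G' hG', nrm_gact_app, nrm_gact_app, e1,
        nrm_inv hINV p q r hp hq hr τ' G' hG' t]
    rw [e2]
    calc ‖gact G' t.reverse (gact G' w (gact G' h.reverse x))‖
        ≤ nrm_K G' ^ B * ‖gact G' w (gact G' h.reverse x)‖ :=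
          nrm_word_bound' G' t.reverse B (by rwa [List.length_reverse]) _
      _ ≤ nrm_K G' ^ B * (nrm (gact G' w) * ‖gact G' h.reverse x‖) :=
          mul_le_mul_of_nonneg_left (nrm_gact_bound G' w _) (by positivity)
      _ ≤ nrm_K G' ^ B * (nrm (gact G' w) * (nrm_K G' ^ B * ‖x‖)) := by
          refine mul_le_mul_of_nonneg_left (mul_le_mul_of_nonneg_left ?_ hN) (by positivity)
          exact nrm_word_bound' G' h.reverse B (by rwa [List.length_reverse]) x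
      _ = _ := by ring
  have h2 := hCt (n, a, b) hD ms hok _ (by positivity) h1
  have h3 : Ct (n, a, b) ≤ CS :=
    Finset.single_le_sum (f := Ct) (fun t _ => hCt0 t) (Finset.mem_univ _)
  have h4 : nrm (gact G (dw (n, a, b) ms)) ≤
      CS * (nrm_K G' ^ B * nrm_K G' ^ B * nrm (gact G' w)) :=
    h2.trans (mul_le_mul_of_nonneg_right h3 (by positivity))
  have h5 : ∀ i : Fin 3, ‖gact G w (Pi.single i 1)‖ ≤
      nrm_K G ^ B * (CS * (nrm_K G' ^ B * nrm_K G' ^ B * nrm (gact G' w)) * nrm_K G ^ B) := by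
    intro i
    rw [hEq τ G hG, nrm_gact_app, nrm_gact_app]
    have hs : ‖(Pi.single i 1 : V3)‖ = 1 := by
      rw [Pi.norm_single, norm_one]
    refine (nrm_word_bound' G t B hlt' _).trans (mul_le_mul_of_nonneg_left ?_ (by positivity))
    calc ‖gact G (dw (n, a, b) ms) (gact G h (Pi.single i 1))‖
        ≤ nrm (gact G (dw (n, a, b) ms)) * ‖gact G h (Pi.single i 1)‖ := nrm_gact_bound G _ _
      _ ≤ CS * (nrm_K G' ^ B * nrm_K G' ^ B * nrm (gact G' w)) * nrm_K G ^ B := by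
          refine mul_le_mul h4 ?_ (norm_nonneg _) (by positivity)
          have := nrm_word_bound' G h B hlh (Pi.single i 1)
          rwa [hs, mul_one] at this
  calc nrm (gact G w) = ∑ i : Fin 3, ‖gact G w (Pi.single i 1)‖ := rfl
    _ ≤ ∑ _i : Fin 3, nrm_K G ^ B *
          (CS * (nrm_K G' ^ B * nrm_K G' ^ B * nrm (gact G' w)) * nrm_K G ^ B) :=
        Finset.sum_le_sum (fun i _ => h5 i)
    _ = 3 * (nrm_K G ^ B * (CS * (nrm_K G' ^ B * nrm_K G' ^ B)) * nrm_K G ^ B)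
          * nrm (gact G' w) := by
        rw [Finset.sum_const, Finset.card_univ, Fintype.card_fin, nsmul_eq_mul]
        push_cast
        ring

end Pool.Agent.Helper6.MONO
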